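import Pool.Agent.Jellium.Defs

/-! Combinatorial identities for pair sums, and the Baire category argument. -/

open MeasureTheory Filter Topology

namespace Pool.Agent.Jellium

theorem two_mul_pairSum {w : E3 → ℝ} (hw : ∀ x, w (-x) = w x) {N : ℕ} (X : Fin N → E3) :
    2 * pairSum w X = (∑ i, ∑ j, w (X i - X j)) - N * w 0 := by
  have hsplit : ∀ i : Fin N, ∑ j, w (X i - X j)
      = (∑ j ∈ Finset.Ioi i, w (X i - X j)) + (∑ j ∈ Finset.Iio i, w (X i - X j)) + w 0 := by
    intro i
    have h1 : (Finset.univ : Finset (Fin N)) = (Finset.Ioi i ∪ Finset.Iio i) ∪ {i} := by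
      ext j
      simp only [Finset.mem_univ, Finset.mem_union, Finset.mem_Ioi, Finset.mem_Iio,
        Finset.mem_singleton, true_iff]
      rcases lt_trichotomy i j with h | h | h
      · exact Or.inl (Or.inl h)
      · exact Or.inr h.symm
      · exact Or.inl (Or.inr h)
    rw [h1, Finset.sum_union, Finset.sum_union, Finset.sum_singleton, sub_self]
    · rw [Finset.disjoint_left]
      intro j hj hj'
      simp only [Finset.mem_Ioi, Finset.mem_Iio] at hj hj'
      exact absurd (lt_trans hj hj') (lt_irrefl _)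
    · rw [Finset.disjoint_left]
      intro j hj hj'
      simp only [Finset.mem_union, Finset.mem_Ioi, Finset.mem_Iio, Finset.mem_singleton] at hj hj'
      subst hj'
      rcases hj with hj | hj <;> exact absurd hj (lt_irrefl _)
  have hswap : ∑ i : Fin N, ∑ j ∈ Finset.Iio i, w (X i - X j)
      = ∑ i : Fin N, ∑ j ∈ Finset.Ioi i, w (X i - X j) := by
    rw [Finset.sum_comm' (t' := Finset.univ) (s' := fun j => Finset.Ioi j)]
    · refine Finset.sum_congr rfl fun i _ => Finset.sum_congr rfl fun j _ => ?_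
      rw [← hw, neg_sub]
    · intro x y
      simp
  simp_rw [hsplit, Finset.sum_add_distrib]
  rw [hswap]
  simp only [Finset.sum_const, Finset.card_univ, Fintype.card_fin, nsmul_eq_mul, pairSum]
  ring

/-- Splitting off the particle with index `i`. -/
theorem pairSum_succAbove {w : E3 → ℝ} (hw : ∀ x, w (-x) = w x) {n : ℕ} (X : Fin (n + 1) → E3)
    (i : Fin (n + 1)) :
    pairSum w X = pairSum w (fun a => X (i.succAbove a))
      + ∑ a, w (X i - X (i.succAbove a)) := by
  have h1 := two_mul_pairSum hw X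
  have h2 := two_mul_pairSum hw (fun a => X (i.succAbove a))
  have h3 : ∑ a, ∑ b, w (X a - X b) = (∑ a : Fin n, ∑ b : Fin n,
      w (X (i.succAbove a) - X (i.succAbove b))) + 2 * (∑ a, w (X i - X (i.succAbove a))) + w 0 := by
    rw [Fin.sum_univ_succAbove _ i]
    simp_rw [fun a => Fin.sum_univ_succAbove (fun b => w (X a - X b)) i]
    rw [Finset.sum_add_distrib, sub_self]
    have : ∑ a : Fin n, w (X (i.succAbove a) - X i) = ∑ a, w (X i - X (i.succAbove a)) := by
      refine Finset.sum_congr rfl fun a _ => ?_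
      rw [← hw, neg_sub]
    rw [this]
    ring
  push_cast at h1
  linarith

/-- Averaging the pair sum over the removal of one particle. -/
theorem sum_pairSum_succAbove {w : E3 → ℝ} (hw : ∀ x, w (-x) = w x) {n : ℕ}
    (X : Fin (n + 1) → E3) :
    ∑ i, pairSum w (fun a => X (Fin.succAbove i a)) = ((n : ℝ) - 1) * pairSum w X := by
  have h1 := two_mul_pairSum hw X
  have h2 : ∀ i : Fin (n + 1), pairSum w (fun a => X (i.succAbove a))
      = pairSum w X - ((∑ b, w (X i - X b)) - w 0) := by
    intro i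
    rw [pairSum_succAbove hw X i, Fin.sum_univ_succAbove (fun b => w (X i - X b)) i, sub_self]
    ring
  simp_rw [h2, Finset.sum_sub_distrib]
  simp only [Finset.sum_const, Finset.card_univ, Fintype.card_fin, nsmul_eq_mul]
  push_cast at h1 ⊢
  linarith

theorem sum_sum_succAbove {n : ℕ} (f : Fin (n + 1) → ℝ) :
    ∑ i : Fin (n + 1), ∑ a : Fin n, f (i.succAbove a) = n * ∑ i, f i := by
  have h2 : ∀ i : Fin (n + 1), ∑ a : Fin n, f (i.succAbove a) = (∑ b, f b) - f i := by
    intro i
    rw [Fin.sum_univ_succAbove f i]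
    ring
  simp_rw [h2, Finset.sum_sub_distrib]
  simp only [Finset.sum_const, Finset.card_univ, Fintype.card_fin, nsmul_eq_mul]
  push_cast
  ring

/-- The Baire category argument: a pointwise limit of continuous functions which is locally
uniformly Lipschitz along the shifts in a dense set is continuous. -/
theorem continuous_of_shift (f : ℕ → ℝ → ℝ) (g : ℝ → ℝ) (hf : ∀ j, Continuous (f j))
    (hlim : ∀ t, Tendsto (fun j => f j t) atTop (𝓝 (g t))) (D : Set ℝ) (hD : Dense D)
    (hshift : ∀ t₀, ∃ C : ℝ, ∃ δ > 0, ∀ t, |t - t₀| < δ → ∀ s ∈ D, |s| < δ →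
      |g (t + s) - g t| ≤ C * |s|) : Continuous g := by
  rw [Metric.continuous_iff]
  intro t₀ ε' hε'
  set ε := ε' / 6 with hε
  have hε0 : 0 < ε := by positivity
  obtain ⟨C, δ, hδ, hC⟩ := hshift t₀
  -- small window
  obtain ⟨η, hη0, hηδ, hηC⟩ : ∃ η > 0, η ≤ δ ∧ |C| * η ≤ ε := by
    refine ⟨min δ (ε / (|C| + 1)), by positivity, min_le_left _ _, ?_⟩
    calc |C| * min δ (ε / (|C| + 1)) ≤ |C| * (ε / (|C| + 1)) := by
          gcongr
          exact min_le_right _ _
      _ = ε * (|C| / (|C| + 1)) := by ring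
      _ ≤ ε * 1 := by
          gcongr
          rw [div_le_one (by positivity)]
          linarith
      _ = ε := by ring
  -- Baire
  set F : ℕ → Set ℝ := fun n => {t | ∀ i ≥ n, ∀ j ≥ n, |f i t - f j t| ≤ ε} with hF
  have hFclosed : ∀ n, IsClosed (F n) := by
    intro n
    have : F n = ⋂ (i : ℕ) (_ : i ≥ n) (j : ℕ) (_ : j ≥ n), {t | |f i t - f j t| ≤ ε} := by
      ext t
      simp [hF]
    rw [this]
    refine isClosed_iInter fun i => isClosed_iInter fun _ => isClosed_iInter fun j =>
      isClosed_iInter fun _ => ?_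
    exact isClosed_le (((hf i).sub (hf j)).abs) continuous_const
  have hFcover : ⋃ n, F n = Set.univ := by
    refine Set.eq_univ_of_forall fun t => ?_
    have hc := (hlim t).cauchySeq
    rw [Metric.cauchySeq_iff] at hc
    obtain ⟨n, hn⟩ := hc ε hε0
    refine Set.mem_iUnion.2 ⟨n, fun i hi j hj => ?_⟩
    have := hn i hi j hj
    rw [Real.dist_eq] at this
    exact this.le
  have hdense := dense_iUnion_interior_of_closed hFclosed hFcover
  obtain ⟨p, hp, hpF⟩ := hdense.inter_open_nonempty (Metric.ball t₀ η) Metric.isOpen_ball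
    ⟨t₀, Metric.mem_ball_self hη0⟩
  obtain ⟨n, hn⟩ := Set.mem_iUnion.1 hpF
  -- open set J inside the ball and the interior
  set J : Set ℝ := Metric.ball t₀ η ∩ interior (F n) with hJ
  have hJopen : IsOpen J := Metric.isOpen_ball.inter isOpen_interior
  have hpJ : p ∈ J := ⟨hp, hn⟩
  -- a dense shift into J
  have hpre : IsOpen ((fun s => t₀ + s) ⁻¹' J) :=
    hJopen.preimage (by fun_prop)
  obtain ⟨s, hsJ, hsD⟩ := hD.inter_open_nonempty _ hpre ⟨p - t₀, by
    simpa using hpJ⟩
  have hsJ' : t₀ + s ∈ J := hsJ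
  have hs : |s| < η := by
    have := hsJ'.1
    rw [Metric.mem_ball, Real.dist_eq] at this
    simpa using this
  have hgf : ∀ t ∈ J, |g t - f n t| ≤ ε := by
    intro t ht
    have h1 : ∀ᶠ i in atTop, |f i t - f n t| ≤ ε := by
      filter_upwards [eventually_ge_atTop n] with i hi
      exact interior_subset ht.2 i hi n le_rfl
    have h2 : Tendsto (fun i => |f i t - f n t|) atTop (𝓝 |g t - f n t|) :=
      ((hlim t).sub_const _).abs
    exact le_of_tendsto h2 h1
  -- neighbourhood of t₀
  have hnear : ∀ᶠ t in 𝓝 t₀, t + s ∈ J := by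
    have hc : ContinuousAt (fun t => t + s) t₀ := by fun_prop
    exact hc.eventually_mem (hJopen.mem_nhds hsJ')
  have hnear2 : ∀ᶠ t in 𝓝 t₀, |f n (t + s) - f n (t₀ + s)| < ε := by
    have hc : ContinuousAt (fun t => f n (t + s)) t₀ := by
      have := (hf n)
      fun_prop
    have := Metric.continuousAt_iff.1 hc ε hε0
    obtain ⟨r, hr, hr'⟩ := this
    filter_upwards [Metric.ball_mem_nhds t₀ hr] with t ht
    have := hr' ht
    rwa [Real.dist_eq] at this
  have hnear3 : ∀ᶠ t in 𝓝 t₀, |t - t₀| < δ := by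
    filter_upwards [Metric.ball_mem_nhds t₀ hδ] with t ht
    rwa [Metric.mem_ball, Real.dist_eq] at ht
  have hall := (hnear.and (hnear2.and hnear3))
  rw [Metric.eventually_nhds_iff] at hall
  obtain ⟨r, hr, hr'⟩ := hall
  refine ⟨r, hr, fun t ht => ?_⟩
  obtain ⟨ha, hb, hc⟩ := hr' ht
  rw [Real.dist_eq]
  have hCs : C * |s| ≤ ε := by
    calc C * |s| ≤ |C| * |s| := by gcongr; exact le_abs_self C
      _ ≤ |C| * η := by gcongr
      _ ≤ ε := hηC
  have e1 := (hC t hc s hsD (lt_of_lt_of_le hs hηδ)).trans hCs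
  have e2 := (hC t₀ (by simpa using hδ) s hsD (lt_of_lt_of_le hs hηδ)).trans hCs
  have e3 := hgf _ ha
  have e4 := hgf _ hsJ'
  rw [abs_le] at e1 e2 e3 e4
  rw [abs_lt] at hb
  rw [abs_lt]
  constructor <;> linarith [e1.1, e1.2, e2.1, e2.2, e3.1, e3.2, e4.1, e4.2, hb.1, hb.2]

end Pool.Agent.Jellium
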