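import Pool.Agent.Jellium.Config

/-! Comparison of the partition functions with `n` and `n+1` particles in the same domain. -/

open MeasureTheory Filter Topology

namespace Pool.Agent.Jellium

theorem integral_succAbove {n : ℕ} {Λ : Set E3} (hfin : volume Λ ≠ ⊤) (i : Fin (n + 1))
    (f : (Fin n → E3) → ℝ) :
    ∫ X, f (fun a => X (Fin.succAbove i a)) ∂(cfg Λ (n + 1))
      = (volume Λ).toReal * ∫ Y, f Y ∂(cfg Λ n) := by
  have : IsFiniteMeasure ((volume : Measure E3).restrict Λ) := ⟨by simpa using hfin.lt_top⟩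
  have hmp := measurePreserving_piFinSuccAbove
    (fun _ : Fin (n + 1) => (volume : Measure E3).restrict Λ) i
  have h := hmp.integral_comp (MeasurableEquiv.measurableEmbedding _)
    (fun p : E3 × (Fin n → E3) => f p.2)
  unfold cfg
  have h1 : (fun X : Fin (n + 1) → E3 => f (fun a => X (Fin.succAbove i a)))
      = fun X => f ((MeasurableEquiv.piFinSuccAbove (fun _ : Fin (n + 1) => E3) i) X).2 := by
    ext X
    rfl
  rw [h1, h, integral_fun_snd]
  simp [Measure.real]

theorem exp_avg_le {ι : Type*} (s : Finset ι) (hs : 0 < (s.card : ℝ)) (f : ι → ℝ) (a : ℝ)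
    (ha : (∑ i ∈ s, f i) / s.card ≤ a) {β : ℝ} (hβ : 0 < β) :
    Real.exp (-β * a) ≤ (∑ i ∈ s, Real.exp (-β * f i)) / s.card := by
  set m := (∑ i ∈ s, f i) / s.card with hm
  have h1 : Real.exp (-β * a) ≤ Real.exp (-β * m) := by
    apply Real.exp_le_exp.2
    nlinarith
  refine h1.trans ?_
  rw [le_div_iff₀ hs]
  have h2 : ∀ i ∈ s, Real.exp (-β * m) * (1 - β * (f i - m)) ≤ Real.exp (-β * f i) := by
    intro i _
    have h3 : Real.exp (-β * f i) = Real.exp (-β * m) * Real.exp (-β * (f i - m)) := by
      rw [← Real.exp_add]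
      ring_nf
    rw [h3]
    have h4 := Real.add_one_le_exp (-β * (f i - m))
    have h5 := (Real.exp_pos (-β * m)).le
    nlinarith
  calc Real.exp (-β * m) * s.card
      = ∑ i ∈ s, Real.exp (-β * m) * (1 - β * (f i - m)) := by
        rw [← Finset.mul_sum, Finset.sum_sub_distrib, ← Finset.mul_sum, Finset.sum_sub_distrib]
        simp only [Finset.sum_const, nsmul_eq_mul, mul_one]
        have : ∑ i ∈ s, f i = m * s.card := by
          rw [hm]
          field_simp
        rw [this]
        ring
    _ ≤ ∑ i ∈ s, Real.exp (-β * f i) := Finset.sum_le_sum h2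

/-- Removing a particle. -/
theorem I_succ_le {v : E3 → ℝ} (hv : AEStronglyMeasurable v volume)
    (hev : ∀ x, v (-x) = v x) {β B B' : ℝ} (hβ : 0 < β) {Λ : Set E3}
    (hΛ : MeasurableSet Λ) (hfin : volume Λ ≠ ⊤) (hpos : 0 < (volume Λ).toReal) {n : ℕ}
    (hs : StableOn v ((n + 1 : ℕ) / (volume Λ).toReal) Λ (n + 1) B)
    (hs' : StableOn v (n / (volume Λ).toReal) Λ n B') :
    Real.exp (-β * (2 * B + (∫ x in Λ, bgPotential Λ x) / (2 * (volume Λ).toReal ^ 2)))
      * I v β ((n + 1 : ℕ) / (volume Λ).toReal) Λ (n + 1)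
      ≤ (volume Λ).toReal * I v β (n / (volume Λ).toReal) Λ n := by
  set V := (volume Λ).toReal with hV
  set K := 2 * B + (∫ x in Λ, bgPotential Λ x) / (2 * V ^ 2) with hK
  have hI : ∀ i : Fin (n + 1), Integrable (fun X : Fin (n + 1) → E3 =>
      Real.exp (-β * energy v (n / V) Λ (fun a => X (Fin.succAbove i a)))) (cfg Λ (n + 1)) := by
    intro i
    have : IsFiniteMeasure ((volume : Measure E3).restrict Λ) := ⟨by simpa using hfin.lt_top⟩
    have hmp := measurePreserving_piFinSuccAbove
      (fun _ : Fin (n + 1) => (volume : Measure E3).restrict Λ) i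
    have h0 := integrable_exp hv hβ hΛ hfin hs'
    have h1 : Integrable (fun p : E3 × (Fin n → E3) =>
        Real.exp (-β * energy v (n / V) Λ p.2)) (((volume : Measure E3).restrict Λ).prod
          (cfg Λ n)) := h0.comp_snd _
    exact (hmp.integrable_comp_emb (MeasurableEquiv.measurableEmbedding _)).2 h1
  have hcard : ((Finset.univ : Finset (Fin (n + 1))).card : ℝ) = (n + 1 : ℕ) := by simp
  have hpt : ∀ᵐ X ∂(cfg Λ (n + 1)),
      Real.exp (-β * K) * Real.exp (-β * energy v ((n + 1 : ℕ) / V) Λ X)
      ≤ (∑ i : Fin (n + 1), Real.exp (-β * energy v (n / V) Λ (fun a => X (Fin.succAbove i a))))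
        / (n + 1 : ℕ) := by
    refine ae_cfg_of hΛ ?_
    filter_upwards [ae_injective (n + 1)] with X hX hXΛ
    have h1 := avg_energy_le hev hpos (hs X hXΛ hX)
    have h2 := exp_avg_le Finset.univ (by rw [hcard]; positivity)
      (fun i => energy v (n / V) Λ (fun a => X (Fin.succAbove i a)))
      (energy v ((n + 1 : ℕ) / V) Λ X + K) (by rw [hcard]; rw [hK, ← add_assoc]; exact h1) hβ
    rw [hcard] at h2
    rw [← Real.exp_add]
    refine le_trans (le_of_eq ?_) h2
    ring_nf
  have hint1 : Integrable (fun X => Real.exp (-β * K) *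
      Real.exp (-β * energy v ((n + 1 : ℕ) / V) Λ X)) (cfg Λ (n + 1)) :=
    (integrable_exp hv hβ hΛ hfin hs).const_mul _
  have hint2 : Integrable (fun X => (∑ i : Fin (n + 1),
      Real.exp (-β * energy v (n / V) Λ (fun a => X (Fin.succAbove i a)))) / ((n + 1 : ℕ) : ℝ))
      (cfg Λ (n + 1)) :=
    (integrable_finsetSum _ fun i _ => hI i).div_const _
  have h := integral_mono_ae hint1 hint2 hpt
  rw [integral_const_mul, integral_div, integral_finsetSum _ fun i _ => hI i] at h
  simp_rw [fun i : Fin (n + 1) => integral_succAbove hfin i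
    (fun Y => Real.exp (-β * energy v (n / V) Λ Y))] at h
  rw [Finset.sum_const, Finset.card_univ, Fintype.card_fin, nsmul_eq_mul,
    mul_div_cancel_left₀ _ (by positivity)] at h
  exact h

theorem energy_insert {v : E3 → ℝ} (hev : ∀ x, v (-x) = v x) {n : ℕ} (ρ : ℝ) (Λ : Set E3)
    (x : E3) (Y : Fin n → E3) :
    energy v ρ Λ (Fin.insertNth (α := fun _ => E3) 0 x Y : Fin (n + 1) → E3)
      = pairSum (fun z => ‖z‖⁻¹) Y + (∑ a, ‖x - Y a‖⁻¹)
        - ρ * (bgPotential Λ x + ∑ a, bgPotential Λ (Y a))
        + (1 / 2) * ρ ^ 2 * (∫ x in Λ, bgPotential Λ x)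
        + (pairSum v Y + ∑ a, v (x - Y a)) := by
  have hinv : ∀ x : E3, (fun z : E3 => ‖z‖⁻¹) (-x) = (fun z : E3 => ‖z‖⁻¹) x := by
    intro x; simp
  unfold energy jelliumEnergy
  rw [pairSum_succAbove hinv _ 0, pairSum_succAbove hev _ 0, Fin.sum_univ_succAbove _ 0]
  simp only [Fin.insertNth_apply_same, Fin.insertNth_apply_succAbove]

/-- Adding a particle. -/
theorem le_I_succ {v : E3 → ℝ} (hint : Integrable v)
    (hev : ∀ x, v (-x) = v x) {β B B' : ℝ} (hβ : 0 < β) {Λ : Set E3}
    (hΛ : MeasurableSet Λ) (hfin : volume Λ ≠ ⊤) (hpos : 0 < (volume Λ).toReal) {n : ℕ}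
    (hs : StableOn v ((n + 1 : ℕ) / (volume Λ).toReal) Λ (n + 1) B)
    (hs' : StableOn v (n / (volume Λ).toReal) Λ n B') :
    (volume Λ).toReal * Real.exp (-β * (n / (volume Λ).toReal * ∫ z, |v z|))
      * I v β (n / (volume Λ).toReal) Λ n
      ≤ I v β ((n + 1 : ℕ) / (volume Λ).toReal) Λ (n + 1) := by
  set V := (volume Λ).toReal with hV
  set A := ∫ z, |v z| with hA
  have hv := hint.aestronglyMeasurable
  have hfm : IsFiniteMeasure ((volume : Measure E3).restrict Λ) := ⟨by simpa using hfin.lt_top⟩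
  have hmp := measurePreserving_piFinSuccAbove
    (fun _ : Fin (n + 1) => (volume : Measure E3).restrict Λ) 0
  set μ := (volume : Measure E3).restrict Λ with hμ
  have hI1 := integrable_exp hv hβ hΛ hfin hs
  -- transport to the product
  set F : E3 × (Fin n → E3) → ℝ := fun p =>
    Real.exp (-β * energy v ((n + 1 : ℕ) / V) Λ
      (Fin.insertNth (α := fun _ => E3) 0 p.1 p.2 : Fin (n + 1) → E3)) with hF
  have hFX : (fun X : Fin (n + 1) → E3 => Real.exp (-β * energy v ((n + 1 : ℕ) / V) Λ X))
      = fun X => F ((MeasurableEquiv.piFinSuccAbove (fun _ : Fin (n + 1) => E3) 0) X) := by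
    ext X
    simp only [hF]
    congr 3
    exact (Fin.insertNth_self_removeNth 0 X).symm
  have hFint : Integrable F (μ.prod (cfg Λ n)) := by
    rw [hFX] at hI1
    exact (hmp.integrable_comp_emb (MeasurableEquiv.measurableEmbedding _)).1 hI1
  have hIeq : I v β ((n + 1 : ℕ) / V) Λ (n + 1) = ∫ Y, ∫ x, F (x, Y) ∂μ ∂(cfg Λ n) := by
    unfold I
    rw [hFX]
    have h := hmp.integral_comp (MeasurableEquiv.measurableEmbedding _) F
    have h' : ∫ X, F ((MeasurableEquiv.piFinSuccAbove (fun _ : Fin (n + 1) => E3) 0) X)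
        ∂(cfg Λ (n + 1)) = ∫ p, F p ∂(μ.prod (cfg Λ n)) := h
    rw [h', integral_prod_symm _ hFint]
  rw [hIeq]
  -- the inner inequality
  have hinner : ∀ᵐ Y ∂(cfg Λ n), V * Real.exp (-β * (n / V * A)) *
      Real.exp (-β * energy v (n / V) Λ Y) ≤ ∫ x, F (x, Y) ∂μ := by
    filter_upwards [hFint.prod_left_ae] with Y hY
    set h : E3 → ℝ := fun x => energy v ((n + 1 : ℕ) / V) Λ
      (Fin.insertNth (α := fun _ => E3) 0 x Y : Fin (n + 1) → E3) with hh
    have hi1 : Integrable (fun x : E3 => ∑ a, ‖x - Y a‖⁻¹) μ := by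
      refine integrable_finsetSum _ fun a _ => ?_
      have := integrableOn_inv_norm_sub (Y a) hfin
      refine this.congr (Eventually.of_forall fun y => ?_)
      simp only
      rw [norm_sub_rev]
    have hi2 : Integrable (fun x : E3 => ∑ a, v (x - Y a)) μ := by
      refine integrable_finsetSum _ fun a _ => ?_
      exact (hint.comp_sub_right (Y a)).restrict
    have hi3 : Integrable (fun x : E3 => bgPotential Λ x) μ := integrableOn_bgPotential hfin
    set J := ∫ x in Λ, bgPotential Λ x with hJ
    set P := pairSum (fun z => ‖z‖⁻¹) Y with hP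
    set Q := pairSum v Y with hQ
    set Φ := ∑ a, bgPotential Λ (Y a) with hΦ
    have hhx : h = fun x => (∑ a, ‖x - Y a‖⁻¹) + (∑ a, v (x - Y a))
        - ((n + 1 : ℕ) / V) * bgPotential Λ x
        + (P - ((n + 1 : ℕ) / V) * Φ + (1 / 2) * ((n + 1 : ℕ) / V) ^ 2 * J + Q) := by
      ext x
      simp only [hh]
      rw [energy_insert hev]
      ring
    have hhint : Integrable h μ := by
      rw [hhx]
      exact ((hi1.add hi2).sub (hi3.const_mul _)).add (integrable_const _)
    have hmass : ∫ _x, (1 : ℝ) ∂μ = V := by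
      simp [hμ, hV, Measure.real]
    have hv1 : ∫ x, (∑ a, ‖x - Y a‖⁻¹) ∂μ = Φ := by
      rw [integral_finsetSum]
      · rw [hΦ]
        refine Finset.sum_congr rfl fun a _ => ?_
        unfold bgPotential
        refine integral_congr_ae (Eventually.of_forall fun y => ?_)
        simp only
        rw [norm_sub_rev]
      · intro a _
        have := integrableOn_inv_norm_sub (Y a) hfin
        refine this.congr (Eventually.of_forall fun y => ?_)
        simp only
        rw [norm_sub_rev]
    have hv2 : ∫ x, (∑ a, v (x - Y a)) ∂μ ≤ n * A := by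
      rw [integral_finsetSum _ fun a _ => (hint.comp_sub_right (Y a)).restrict]
      have : ∀ a : Fin n, ∫ x, v (x - Y a) ∂μ ≤ A := by
        intro a
        calc ∫ x, v (x - Y a) ∂μ ≤ ∫ x, |v (x - Y a)| ∂μ := by
              refine integral_mono (hint.comp_sub_right (Y a)).restrict
                ((hint.comp_sub_right (Y a)).restrict).abs fun x => le_abs_self _
          _ ≤ ∫ x, |v (x - Y a)| := by
              refine setIntegral_le_integral (hint.comp_sub_right (Y a)).abs
                (Eventually.of_forall fun x => abs_nonneg _)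
          _ = A := by
              rw [integral_sub_right_eq_self (fun y => |v y|)]
      calc ∑ a : Fin n, ∫ x, v (x - Y a) ∂μ ≤ ∑ _a : Fin n, A :=
            Finset.sum_le_sum fun a _ => this a
        _ = n * A := by simp
    have hmean : ∫ x, h x ∂μ ≤ V * (energy v (n / V) Λ Y + n / V * A) := by
      have e1 : ∫ x, h x ∂μ = Φ + (∫ x, (∑ a, v (x - Y a)) ∂μ) - ((n + 1 : ℕ) / V) * J
          + V * (P - ((n + 1 : ℕ) / V) * Φ + (1 / 2) * ((n + 1 : ℕ) / V) ^ 2 * J + Q) := by
        have hA1 : Integrable (fun x => (∑ a, ‖x - Y a‖⁻¹) + (∑ a, v (x - Y a))) μ := hi1.add hi2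
        have hA3 : Integrable (fun x => ((n + 1 : ℕ) / V) * bgPotential Λ x) μ :=
          hi3.const_mul _
        have hA2 : Integrable (fun x => (∑ a, ‖x - Y a‖⁻¹) + (∑ a, v (x - Y a))
            - ((n + 1 : ℕ) / V) * bgPotential Λ x) μ := hA1.sub hA3
        rw [hhx, integral_add hA2 (integrable_const _), integral_sub hA1 hA3,
          integral_add hi1 hi2, integral_const_mul, hv1, integral_const]
        simp [hμ, hV, Measure.real, hJ]
      have e2 : energy v (n / V) Λ Y = P - (n / V) * Φ + (1 / 2) * (n / V) ^ 2 * J + Q := by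
        unfold energy jelliumEnergy
        rfl
      have hJ0 : 0 ≤ J := selfInt_nonneg Λ
      rw [e1, e2]
      have hn' : ((n + 1 : ℕ) : ℝ) = n + 1 := by push_cast; ring
      rw [hn']
      have e3 : V * (P - n / V * Φ + 1 / 2 * (n / V) ^ 2 * J + Q + n / V * A)
          = Φ + n * A - ((n + 1) / V) * J + V * (P - ((n + 1) / V) * Φ
            + (1 / 2) * ((n + 1) / V) ^ 2 * J + Q) + J / (2 * V) := by
        field_simp
        ring
      rw [e3]
      have : 0 ≤ J / (2 * V) := by positivity
      linarith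
    set a := energy v (n / V) Λ Y + n / V * A with ha
    have htan : ∀ x, Real.exp (-β * a) * (1 - β * (h x - a)) ≤ F (x, Y) := by
      intro x
      have h3 : F (x, Y) = Real.exp (-β * a) * Real.exp (-β * (h x - a)) := by
        rw [← Real.exp_add]
        simp only [hF, hh]
        ring_nf
      rw [h3]
      have h4 := Real.add_one_le_exp (-β * (h x - a))
      have h5 := (Real.exp_pos (-β * a)).le
      nlinarith
    have hle : ∫ x, Real.exp (-β * a) * (1 - β * (h x - a)) ∂μ ≤ ∫ x, F (x, Y) ∂μ :=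
      integral_mono (((integrable_const 1).sub ((hhint.sub (integrable_const a)).const_mul
        β)).const_mul _) hY htan
    refine le_trans ?_ hle
    have hB1 : Integrable (fun x => h x - a) μ := hhint.sub (integrable_const a)
    have hB2 : Integrable (fun x => β * (h x - a)) μ := hB1.const_mul β
    rw [integral_const_mul, integral_sub (integrable_const 1) hB2, integral_const_mul,
      integral_sub hhint (integrable_const a), hmass]
    have hca : ∫ _x, a ∂μ = V * a := by
      rw [integral_const]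
      simp [hμ, hV, Measure.real]
    rw [hca]
    have hexp : V * Real.exp (-β * (n / V * A)) * Real.exp (-β * energy v (n / V) Λ Y)
        = Real.exp (-β * a) * V := by
      rw [mul_assoc, ← Real.exp_add, mul_comm]
      congr 2
      rw [ha]
      ring
    rw [hexp]
    have h5 := (Real.exp_pos (-β * a)).le
    apply mul_le_mul_of_nonneg_left _ h5
    nlinarith
  have hout : Integrable (fun Y => ∫ x, F (x, Y) ∂μ) (cfg Λ n) := hFint.integral_prod_right
  have hlhs : Integrable (fun Y => V * Real.exp (-β * (n / V * A)) *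
      Real.exp (-β * energy v (n / V) Λ Y)) (cfg Λ n) :=
    (integrable_exp hv hβ hΛ hfin hs').const_mul _
  have h := integral_mono_ae hlhs hout hinner
  rw [integral_const_mul] at h
  exact h

end Pool.Agent.Jellium
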