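import Pool.Agent.Jellium.Pot

/-! Measure theory on the configuration space `Λ^N`. -/

open MeasureTheory Filter Topology

namespace Pool.Agent.Jellium

/-- total energy -/
noncomputable def energy (v : E3 → ℝ) (ρ : ℝ) (Λ : Set E3) {N : ℕ} (X : Fin N → E3) : ℝ :=
  jelliumEnergy ρ Λ X + pairSum v X

/-- Lebesgue measure on `Λ^N`. -/
noncomputable def cfg (Λ : Set E3) (N : ℕ) : Measure (Fin N → E3) :=
  Measure.pi (fun _ : Fin N => (volume : Measure E3).restrict Λ)

theorem cfg_eq_restrict (Λ : Set E3) (N : ℕ) :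
    cfg Λ N = (volume : Measure (Fin N → E3)).restrict {X | ∀ i, X i ∈ Λ} := by
  have h := Measure.restrict_pi_pi (μ := fun _ : Fin N => (volume : Measure E3)) (fun _ => Λ)
  unfold cfg
  rw [← h, volume_pi]
  congr 1
  ext X
  simp

/-- the unnormalised partition function -/
noncomputable def I (v : E3 → ℝ) (β ρ : ℝ) (Λ : Set E3) (N : ℕ) : ℝ :=
  ∫ X, Real.exp (-β * energy v ρ Λ X) ∂(cfg Λ N)

theorem partitionFunction_eq (v : E3 → ℝ) (β ρ : ℝ) (Λ : Set E3) (N : ℕ) :
    partitionFunction v β ρ Λ N = (N.factorial : ℝ)⁻¹ * I v β ρ Λ N := by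
  unfold partitionFunction I energy
  rw [cfg_eq_restrict]

theorem quasi_sub {N : ℕ} {i j : Fin N} (hij : i ≠ j) :
    Measure.QuasiMeasurePreserving (fun X : Fin N → E3 => X i - X j) volume volume := by
  set L : (Fin N → E3) →ₗ[ℝ] E3 := LinearMap.proj (R := ℝ) (φ := fun _ : Fin N => E3) i -
    LinearMap.proj (R := ℝ) (φ := fun _ : Fin N => E3) j with hL
  have hsurj : Function.Surjective L := by
    intro z
    refine ⟨Pi.single i z, ?_⟩
    simp [hL, Pi.single_eq_of_ne hij.symm]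
  obtain ⟨c, -, hc⟩ := LinearMap.exists_map_addHaar_eq_smul_addHaar L
    (volume : Measure (Fin N → E3)) (volume : Measure E3) hsurj
  have hLf : (fun X : Fin N → E3 => X i - X j) = L := by
    ext X
    simp [hL]
  refine ⟨by fun_prop, ?_⟩
  rw [hLf, hc]
  exact Measure.smul_absolutelyContinuous

theorem ae_injective (N : ℕ) : ∀ᵐ X : Fin N → E3, Function.Injective X := by
  have h : ∀ i j : Fin N, i ≠ j → ∀ᵐ X : Fin N → E3, X i ≠ X j := by
    intro i j hij
    have h0 : ∀ᵐ z : E3, z ≠ 0 := by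
      rw [ae_iff]
      simp
    filter_upwards [(quasi_sub hij).ae h0] with X hX
    exact fun h => hX (sub_eq_zero.2 h)
  have h2 : ∀ᵐ X : Fin N → E3, ∀ i j : Fin N, i ≠ j → X i ≠ X j := by
    rw [ae_all_iff]
    intro i
    rw [ae_all_iff]
    intro j
    by_cases hij : i = j
    · exact Eventually.of_forall fun X h => absurd hij h
    · filter_upwards [h i j hij] with X hX _
      exact hX
  filter_upwards [h2] with X hX i j hij
  by_contra hne
  exact hX i j hne hij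

theorem aesm_pairSum {w : E3 → ℝ} (hw : AEStronglyMeasurable w volume) (N : ℕ) :
    AEStronglyMeasurable (fun X : Fin N → E3 => pairSum w X) volume := by
  unfold pairSum
  refine Finset.aestronglyMeasurable_fun_sum _ fun i _ => Finset.aestronglyMeasurable_fun_sum _
    fun j hj => ?_
  have hij : i ≠ j := (Finset.mem_Ioi.1 hj).ne
  exact hw.comp_quasiMeasurePreserving (quasi_sub hij)

theorem aesm_energy {v : E3 → ℝ} (hv : AEStronglyMeasurable v volume) (ρ : ℝ) (Λ : Set E3)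
    (N : ℕ) : AEStronglyMeasurable (fun X : Fin N → E3 => energy v ρ Λ X) volume := by
  unfold energy jelliumEnergy
  have h1 : AEStronglyMeasurable (fun X : Fin N → E3 => pairSum (fun z => ‖z‖⁻¹) X) volume :=
    aesm_pairSum (by fun_prop) N
  have h2 : Measurable (fun X : Fin N → E3 => ρ * ∑ i, bgPotential Λ (X i)) := by
    have := measurable_bgPotential Λ
    fun_prop
  exact ((h1.sub h2.aestronglyMeasurable).add aestronglyMeasurable_const).add (aesm_pairSum hv N)

theorem aesm_exp {v : E3 → ℝ} (hv : AEStronglyMeasurable v volume) (β ρ : ℝ) (Λ : Set E3)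
    (N : ℕ) : AEStronglyMeasurable (fun X : Fin N → E3 => Real.exp (-β * energy v ρ Λ X))
      volume :=
  Real.continuous_exp.comp_aestronglyMeasurable ((aesm_energy hv ρ Λ N).const_mul _)

/-- The stability bound on a given domain. -/
def StableOn (v : E3 → ℝ) (ρ : ℝ) (Λ : Set E3) (N : ℕ) (B : ℝ) : Prop :=
  ∀ X : Fin N → E3, (∀ i, X i ∈ Λ) → Function.Injective X → -(B * N) ≤ energy v ρ Λ X

theorem ae_cfg_of {N : ℕ} {Λ : Set E3} (hΛ : MeasurableSet Λ) {p : (Fin N → E3) → Prop}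
    (h : ∀ᵐ X : Fin N → E3, (∀ i, X i ∈ Λ) → p X) : ∀ᵐ X ∂(cfg Λ N), p X := by
  rw [cfg_eq_restrict]
  have hm : MeasurableSet {X : Fin N → E3 | ∀ i, X i ∈ Λ} := by
    rw [Set.ofPred_forall]
    exact MeasurableSet.iInter fun i => (measurable_pi_apply i) hΛ
  rw [ae_restrict_iff' hm]
  exact h

theorem exp_le_of_stable {v : E3 → ℝ} {β ρ B : ℝ} (hβ : 0 < β) {Λ : Set E3}
    (hΛ : MeasurableSet Λ) {N : ℕ} (hs : StableOn v ρ Λ N B) :
    ∀ᵐ X ∂(cfg Λ N), Real.exp (-β * energy v ρ Λ X) ≤ Real.exp (β * (B * N)) := by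
  refine ae_cfg_of hΛ ?_
  filter_upwards [ae_injective N] with X hX hXΛ
  have := hs X hXΛ hX
  apply Real.exp_le_exp.2
  nlinarith

instance isFinite_cfg {Λ : Set E3} [IsFiniteMeasure ((volume : Measure E3).restrict Λ)] (N : ℕ) :
    IsFiniteMeasure (cfg Λ N) := by
  unfold cfg
  infer_instance

theorem integrable_exp {v : E3 → ℝ} (hv : AEStronglyMeasurable v volume) {β ρ B : ℝ}
    (hβ : 0 < β) {Λ : Set E3} (hΛ : MeasurableSet Λ) (hfin : volume Λ ≠ ⊤) {N : ℕ}
    (hs : StableOn v ρ Λ N B) :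
    Integrable (fun X : Fin N → E3 => Real.exp (-β * energy v ρ Λ X)) (cfg Λ N) := by
  have : IsFiniteMeasure ((volume : Measure E3).restrict Λ) := ⟨by simpa using hfin.lt_top⟩
  refine (integrable_const (Real.exp (β * (B * N)))).mono' ?_ ?_
  · rw [cfg_eq_restrict]
    exact (aesm_exp hv β ρ Λ N).restrict
  · filter_upwards [exp_le_of_stable hβ hΛ hs] with X hX
    rwa [Real.norm_eq_abs, Real.abs_exp]

theorem I_pos {v : E3 → ℝ} (hv : AEStronglyMeasurable v volume) {β ρ B : ℝ}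
    (hβ : 0 < β) {Λ : Set E3} (hΛ : MeasurableSet Λ) (hfin : volume Λ ≠ ⊤)
    (hpos : volume Λ ≠ 0) {N : ℕ}
    (hs : StableOn v ρ Λ N B) : 0 < I v β ρ Λ N := by
  have : IsFiniteMeasure ((volume : Measure E3).restrict Λ) := ⟨by simpa using hfin.lt_top⟩
  have hne : NeZero (cfg Λ N) := by
    refine ⟨fun h => ?_⟩
    have h1 : cfg Λ N Set.univ = 0 := by rw [h]; simp
    unfold cfg at h1
    rw [Measure.pi_univ] at h1
    simp only [Measure.restrict_apply_univ, Finset.prod_const, Finset.card_univ,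
      Fintype.card_fin] at h1
    exact (pow_ne_zero N hpos) h1
  exact integral_exp_pos (integrable_exp hv hβ hΛ hfin hs)

/-- pointwise inequality: average energy after removing a particle -/
theorem avg_energy_le {v : E3 → ℝ} (hv : ∀ x, v (-x) = v x) {n : ℕ} {Λ : Set E3} {V B : ℝ}
    (hV : 0 < V) {X : Fin (n + 1) → E3}
    (hs : -(B * (n + 1 : ℕ)) ≤ energy v ((n + 1 : ℕ) / V) Λ X) :
    (∑ i : Fin (n + 1), energy v (n / V) Λ (fun a => X (Fin.succAbove i a))) / (n + 1 : ℕ)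
      ≤ energy v ((n + 1 : ℕ) / V) Λ X + 2 * B + (∫ x in Λ, bgPotential Λ x) / (2 * V ^ 2) := by
  set J := ∫ x in Λ, bgPotential Λ x with hJ
  have hinv : ∀ x : E3, (fun z : E3 => ‖z‖⁻¹) (-x) = (fun z : E3 => ‖z‖⁻¹) x := by
    intro x; simp
  set P := pairSum (fun z => ‖z‖⁻¹) X with hP
  set Q := pairSum v X with hQ
  set Φ := ∑ i, bgPotential Λ (X i) with hΦ
  have hΦ0 : 0 ≤ Φ := Finset.sum_nonneg fun i _ => bgPotential_nonneg _ _
  have hsum : ∑ i : Fin (n + 1), energy v (n / V) Λ (fun a => X (Fin.succAbove i a))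
      = ((n : ℝ) - 1) * P - (n / V) * (n * Φ) + (n + 1 : ℕ) * ((1 / 2) * (n / V) ^ 2 * J)
        + ((n : ℝ) - 1) * Q := by
    unfold energy jelliumEnergy
    rw [Finset.sum_add_distrib, Finset.sum_add_distrib, Finset.sum_sub_distrib,
      sum_pairSum_succAbove hinv, sum_pairSum_succAbove hv, ← Finset.mul_sum,
      sum_sum_succAbove (fun i => bgPotential Λ (X i))]
    simp only [Finset.sum_const, Finset.card_univ, Fintype.card_fin, nsmul_eq_mul]
    rfl
  have hE : energy v ((n + 1 : ℕ) / V) Λ X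
      = P - ((n + 1 : ℕ) / V) * Φ + (1 / 2) * ((n + 1 : ℕ) / V) ^ 2 * J + Q := by
    unfold energy jelliumEnergy
    rfl
  rw [hE] at hs
  rw [hsum, hE]
  have hn : (0 : ℝ) < (n + 1 : ℕ) := by positivity
  have hn' : ((n + 1 : ℕ) : ℝ) = n + 1 := by push_cast; ring
  rw [hn'] at hs hn ⊢
  rw [div_le_iff₀ hn]
  have key : ((n : ℝ) - 1) * P - (n / V) * (n * Φ) + (n + 1) * ((1 / 2) * (n / V) ^ 2 * J)
        + ((n : ℝ) - 1) * Q = ((n : ℝ) - 1) * (P - ((n + 1) / V) * Φ
          + (1 / 2) * ((n + 1) / V) ^ 2 * J + Q) - Φ / V + (n + 1) * (J / (2 * V ^ 2)) := by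
    field_simp
    ring
  have h2 : 0 ≤ Φ / V := by positivity
  have e1 : (n + 1 : ℝ) * (P - (↑n + 1) / V * Φ + 1 / 2 * ((↑n + 1) / V) ^ 2 * J + Q + 2 * B
      + J / (2 * V ^ 2)) = ((n : ℝ) - 1) * (P - ((n + 1) / V) * Φ
          + (1 / 2) * ((n + 1) / V) ^ 2 * J + Q) + 2 * (P - ((n + 1) / V) * Φ
          + (1 / 2) * ((n + 1) / V) ^ 2 * J + Q) + 2 * (B * (n + 1))
          + (n + 1) * (J / (2 * V ^ 2)) := by ring
  rw [key]
  nlinarith [hs, h2, e1]

end Pool.Agent.Jellium
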