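import Mathlib

/-!
# Jellium with a short-range pair potential: definitions

Everything is in `ℝ³` with units `m = e² = 1`.
-/

open MeasureTheory Filter Topology

namespace Pool.Agent.Jellium

/-- Physical space `ℝ³`. -/
abbrev E3 : Type := EuclideanSpace ℝ (Fin 3)

/-- `φ(x) = ∫_Λ |x - y|⁻¹ dy`, the potential of the unit background filling `Λ`. -/
noncomputable def bgPotential (Λ : Set E3) (x : E3) : ℝ := ∫ y in Λ, ‖x - y‖⁻¹

/-- `∑_{i<j} w (x_i - x_j)`. -/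
noncomputable def pairSum (w : E3 → ℝ) {N : ℕ} (X : Fin N → E3) : ℝ :=
  ∑ i, ∑ j ∈ Finset.Ioi i, w (X i - X j)

/-- The jellium energy
`U_{ρ,Λ}(X) = ∑_{i<j} |x_i - x_j|⁻¹ - ρ ∑_i φ(x_i) + ½ ρ² ∫_Λ φ`. -/
noncomputable def jelliumEnergy (ρ : ℝ) (Λ : Set E3) {N : ℕ} (X : Fin N → E3) : ℝ :=
  pairSum (fun z => ‖z‖⁻¹) X - ρ * ∑ i, bgPotential Λ (X i)
    + (1 / 2) * ρ ^ 2 * ∫ x in Λ, bgPotential Λ x

/-- `Z(β,ρ;Λ) = (1/N!) ∫_{Λ^N} exp(-β [U_{ρ,Λ}(X) + ∑_{i<j} v(x_i - x_j)]) dX`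
(to be used with `ρ |Λ| = N`). -/
noncomputable def partitionFunction (v : E3 → ℝ) (β ρ : ℝ) (Λ : Set E3) (N : ℕ) : ℝ :=
  (N.factorial : ℝ)⁻¹ *
    ∫ X in {X : Fin N → E3 | ∀ i, X i ∈ Λ},
      Real.exp (-β * (jelliumEnergy ρ Λ X + pairSum v X))

/-- The radius of the ball `Λ_j` centred at `0` with `ρ |Λ_j| = j`
(see `rho_mul_volume_ball`). -/
noncomputable def radius (ρ : ℝ) (j : ℕ) : ℝ :=
  (3 * (j : ℝ) / (4 * Real.pi * ρ)) ^ ((1 : ℝ) / 3)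

/-- The ball `Λ_j` centred at `0` with `ρ |Λ_j| = j`. -/
noncomputable def ballJ (ρ : ℝ) (j : ℕ) : Set E3 := Metric.ball (0 : E3) (radius ρ j)

/-- `g(β,ρ;Λ_j) = |Λ_j|⁻¹ ln Z(β,ρ;Λ_j)`, with `j` particles. -/
noncomputable def gFinite (v : E3 → ℝ) (β ρ : ℝ) (j : ℕ) : ℝ :=
  (volume (ballJ ρ j)).toReal⁻¹ * Real.log (partitionFunction v β ρ (ballJ ρ j) j)

/-- `g(β,ρ) = lim_{j→∞} g(β,ρ;Λ_j)`. -/
noncomputable def g (v : E3 → ℝ) (β ρ : ℝ) : ℝ := limUnder atTop (gFinite v β ρ)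

/-- Admissible short-range pair potentials. In the stability bound only configurations of
pairwise distinct points matter, because the Coulomb energy is `+∞` at coinciding points. -/
structure Admissible (v : E3 → ℝ) : Prop where
  /-- `v(-x) = v(x)` -/
  even : ∀ x, v (-x) = v x
  /-- `v` is integrable (and finite-valued, being a function into `ℝ`) -/
  integrable : Integrable v
  /-- one-sided tempered tail -/
  tempered : ∃ r₀ C ε : ℝ, 0 ≤ r₀ ∧ 0 ≤ C ∧ 0 < ε ∧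
    ∀ x : E3, r₀ < ‖x‖ → v x ≤ C * ‖x‖ ^ (-3 - ε)
  /-- stability, with a constant `B ρ` that is locally bounded in `ρ ∈ (0,∞)` -/
  stable : ∃ B : ℝ → ℝ,
    (∀ ρ₀ : ℝ, 0 < ρ₀ → ∃ δ : ℝ, 0 < δ ∧ ∃ M : ℝ, ∀ ρ : ℝ, 0 < ρ → |ρ - ρ₀| < δ → |B ρ| ≤ M) ∧
    ∀ ρ : ℝ, 0 < ρ → ∀ (Λ : Set E3) (N : ℕ), IsOpen Λ → IsConnected Λ →
      Bornology.IsBounded Λ → ρ * (volume Λ).toReal = N →
      ∀ X : Fin N → E3, (∀ i, X i ∈ Λ) → Function.Injective X →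
        -(B ρ * N) ≤ jelliumEnergy ρ Λ X + pairSum v X
  /-- the thermodynamic limit exists for every `β > 0` and `ρ > 0` -/
  limit_exists : ∀ β ρ : ℝ, 0 < β → 0 < ρ → ∃ l : ℝ, Tendsto (gFinite v β ρ) atTop (𝓝 l)

/-- Sanity check: the ball `Λ_j` satisfies `ρ |Λ_j| = j`. -/
theorem rho_mul_volume_ball {ρ : ℝ} (hρ : 0 < ρ) (j : ℕ) :
    ρ * (volume (ballJ ρ j)).toReal = j := by
  unfold ballJ radius
  have hnn : 0 ≤ 3 * (j : ℝ) / (4 * Real.pi * ρ) := by positivity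
  have h3 : ((3 * (j : ℝ) / (4 * Real.pi * ρ)) ^ ((1 : ℝ) / 3)) ^ 3
      = 3 * (j : ℝ) / (4 * Real.pi * ρ) := by
    rw [← Real.rpow_natCast, ← Real.rpow_mul hnn]
    norm_num
  rw [EuclideanSpace.volume_ball_fin_three, ENNReal.toReal_mul, ENNReal.toReal_pow,
    ENNReal.toReal_ofReal (by positivity), ENNReal.toReal_ofReal (by positivity), h3]
  field_simp

end Pool.Agent.Jellium
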