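import Pool.Agent.Jellium.Compare

/-! For a fixed particle number, `g(β,ρ;Λ_j)` is continuous in `ρ`. -/

open MeasureTheory Filter Topology

namespace Pool.Agent.Jellium

theorem eventually_mem_ball_iff {y : E3} {r₀ : ℝ} (h : ‖y‖ ≠ r₀) :
    ∀ᶠ r in 𝓝 r₀, (y ∈ Metric.ball (0 : E3) r ↔ y ∈ Metric.ball (0 : E3) r₀) := by
  rcases lt_or_gt_of_ne h with h | h
  · filter_upwards [lt_mem_nhds h] with r hr
    simp [hr, h]
  · filter_upwards [gt_mem_nhds h] with r hr
    simp only [mem_ball_zero_iff]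
    constructor
    · intro h'
      linarith
    · intro h'
      linarith

theorem ae_norm_ne (r₀ : ℝ) : ∀ᵐ y : E3, ‖y‖ ≠ r₀ := by
  have h := Measure.addHaar_sphere (volume : Measure E3) 0 r₀
  rw [ae_iff]
  convert h using 2
  ext y
  simp

theorem continuous_ballInt {f : E3 → ℝ} (hf : ∀ R, IntegrableOn f (Metric.ball 0 R)) :
    Continuous (fun r : ℝ => ∫ y in Metric.ball 0 r, f y) := by
  rw [continuous_iff_continuousAt]
  intro r₀
  have h1 : (fun r : ℝ => ∫ y in Metric.ball 0 r, f y)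
      = fun r => ∫ y, (Metric.ball (0 : E3) r).indicator f y := by
    ext r
    rw [integral_indicator measurableSet_ball]
  rw [h1]
  have hle : ∀ᶠ r in 𝓝 r₀, r ≤ r₀ + 1 := by
    filter_upwards [gt_mem_nhds (show r₀ < r₀ + 1 by linarith)] with r hr using hr.le
  refine continuousAt_of_dominated (bound := (Metric.ball (0 : E3) (r₀ + 1)).indicator
    (fun y => |f y|)) ?_ ?_ ?_ ?_
  · filter_upwards with r
    exact ((integrable_indicator_iff measurableSet_ball).2 (hf r)).aestronglyMeasurable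
  · filter_upwards [hle] with r hr
    refine Eventually.of_forall fun y => ?_
    rw [Real.norm_eq_abs]
    by_cases hy : y ∈ Metric.ball (0 : E3) r
    · have hy' : y ∈ Metric.ball (0 : E3) (r₀ + 1) := Metric.ball_subset_ball hr hy
      rw [Set.indicator_of_mem hy, Set.indicator_of_mem hy']
    · rw [Set.indicator_of_notMem hy, abs_zero]
      exact Set.indicator_nonneg (fun y _ => abs_nonneg _) y
  · exact (integrable_indicator_iff measurableSet_ball).2 (hf (r₀ + 1)).abs
  · filter_upwards [ae_norm_ne r₀] with y hy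
    have : (fun r => (Metric.ball (0 : E3) r).indicator f y) =ᶠ[𝓝 r₀]
        fun _ => (Metric.ball (0 : E3) r₀).indicator f y := by
      filter_upwards [eventually_mem_ball_iff hy] with r hr
      by_cases h : y ∈ Metric.ball (0 : E3) r₀
      · rw [Set.indicator_of_mem h, Set.indicator_of_mem (hr.2 h)]
      · rw [Set.indicator_of_notMem h, Set.indicator_of_notMem (fun h' => h (hr.1 h'))]
    exact continuousAt_const.congr this.symm

theorem vol_ball_ne_top (r : ℝ) : volume (Metric.ball (0 : E3) r) ≠ ⊤ :=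
  measure_ball_lt_top.ne

theorem continuous_bgPotential (x : E3) :
    Continuous (fun r : ℝ => bgPotential (Metric.ball 0 r) x) := by
  unfold bgPotential
  exact continuous_ballInt fun R => integrableOn_inv_norm_sub x (vol_ball_ne_top R)

theorem continuous_selfInt :
    Continuous (fun r : ℝ => ∫ x in Metric.ball 0 r, bgPotential (Metric.ball 0 r) x) := by
  rw [continuous_iff_continuousAt]
  intro r₀
  have h1 : (fun r : ℝ => ∫ x in Metric.ball 0 r, bgPotential (Metric.ball 0 r) x)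
      = fun r => ∫ x, (Metric.ball (0 : E3) r).indicator
        (bgPotential (Metric.ball 0 r)) x := by
    ext r
    rw [integral_indicator measurableSet_ball]
  rw [h1]
  have hle : ∀ᶠ r in 𝓝 r₀, r ≤ r₀ + 1 := by
    filter_upwards [gt_mem_nhds (show r₀ < r₀ + 1 by linarith)] with r hr using hr.le
  set K := C₁ + (volume (Metric.ball (0 : E3) (r₀ + 1))).toReal with hK
  have hK0 : 0 ≤ K := add_nonneg C₁_nonneg ENNReal.toReal_nonneg
  refine continuousAt_of_dominated (bound := (Metric.ball (0 : E3) (r₀ + 1)).indicator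
    (fun _ => K)) ?_ ?_ ?_ ?_
  · filter_upwards with r
    exact ((measurable_bgPotential _).indicator measurableSet_ball).aestronglyMeasurable
  · filter_upwards [hle] with r hr
    refine Eventually.of_forall fun y => ?_
    rw [Real.norm_eq_abs]
    by_cases hy : y ∈ Metric.ball (0 : E3) r
    · have hy' : y ∈ Metric.ball (0 : E3) (r₀ + 1) := Metric.ball_subset_ball hr hy
      rw [Set.indicator_of_mem hy, Set.indicator_of_mem hy', abs_of_nonneg
        (bgPotential_nonneg _ _)]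
      refine (bgPotential_le (vol_ball_ne_top r) y).trans ?_
      rw [hK]
      gcongr
      exact vol_ball_ne_top _
    · rw [Set.indicator_of_notMem hy, abs_zero]
      exact Set.indicator_nonneg (fun y _ => hK0) y
  · exact (integrable_indicator_iff measurableSet_ball).2
      (integrableOn_const (vol_ball_ne_top _))
  · filter_upwards [ae_norm_ne r₀] with y hy
    by_cases h : y ∈ Metric.ball (0 : E3) r₀
    · have : (fun r => (Metric.ball (0 : E3) r).indicator (bgPotential (Metric.ball 0 r)) y)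
          =ᶠ[𝓝 r₀] fun r => bgPotential (Metric.ball 0 r) y := by
        filter_upwards [eventually_mem_ball_iff hy] with r hr
        rw [Set.indicator_of_mem (hr.2 h)]
      exact (continuous_bgPotential y).continuousAt.congr this.symm
    · have : (fun r => (Metric.ball (0 : E3) r).indicator (bgPotential (Metric.ball 0 r)) y)
          =ᶠ[𝓝 r₀] fun _ => 0 := by
        filter_upwards [eventually_mem_ball_iff hy] with r hr
        rw [Set.indicator_of_notMem (fun h' => h (hr.1 h'))]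
      exact continuousAt_const.congr this.symm

theorem continuousAt_radius {ρ₀ : ℝ} (hρ : 0 < ρ₀) (j : ℕ) :
    ContinuousAt (fun ρ => radius ρ j) ρ₀ := by
  unfold radius
  have h1 : ContinuousAt (fun ρ : ℝ => 3 * (j : ℝ) / (4 * Real.pi * ρ)) ρ₀ := by
    have : (4 * Real.pi * ρ₀) ≠ 0 := by positivity
    fun_prop (disch := assumption)
  exact h1.rpow_const (Or.inr (by norm_num))

theorem continuousAt_energy (v : E3 → ℝ) {ρ₀ : ℝ} (hρ : 0 < ρ₀) (j : ℕ) {N : ℕ}
    (X : Fin N → E3) : ContinuousAt (fun ρ => energy v ρ (ballJ ρ j) X) ρ₀ := by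
  unfold energy jelliumEnergy ballJ
  have h1 : ∀ x : E3, ContinuousAt (fun ρ => bgPotential (Metric.ball 0 (radius ρ j)) x) ρ₀ :=
    fun x => (continuous_bgPotential x).continuousAt.comp (continuousAt_radius hρ j)
  have h2 : ContinuousAt (fun ρ => ∫ x in Metric.ball 0 (radius ρ j),
      bgPotential (Metric.ball 0 (radius ρ j)) x) ρ₀ :=
    continuous_selfInt.continuousAt.comp
      (f := fun ρ => radius ρ j) (continuousAt_radius hρ j)
  have h3 : ContinuousAt (fun ρ => ∑ i, bgPotential (Metric.ball 0 (radius ρ j)) (X i)) ρ₀ :=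
    tendsto_finsetSum _ fun i _ => h1 (X i)
  have h4 : ContinuousAt (fun ρ : ℝ => ρ) ρ₀ := continuousAt_id
  exact ((continuousAt_const.sub (h4.mul h3)).add ((continuousAt_const.mul (h4.pow 2)).mul
    h2)).add continuousAt_const

/-- the stability hypothesis specialised to the balls -/
theorem stableOn_ball {v : E3 → ℝ} (hv : Admissible v) {ρ₀ : ℝ} (hρ₀ : 0 < ρ₀) :
    ∃ δ > 0, ∃ M ≥ 0, ∀ r > 0, ∀ n : ℕ, ∀ ρ : ℝ, 0 < ρ → |ρ - ρ₀| < δ →
      ρ * (volume (Metric.ball (0 : E3) r)).toReal = n →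
      StableOn v ρ (Metric.ball 0 r) n M := by
  obtain ⟨B, hB1, hB2⟩ := hv.stable
  obtain ⟨δ, hδ, M, hM⟩ := hB1 ρ₀ hρ₀
  refine ⟨δ, hδ, |M|, abs_nonneg M, fun r hr n ρ hρ hρδ hvol X hX hinj => ?_⟩
  have h1 := hB2 ρ hρ (Metric.ball 0 r) n Metric.isOpen_ball
    ((convex_ball (0 : E3) r).isConnected ⟨0, Metric.mem_ball_self hr⟩)
    Metric.isBounded_ball hvol X hX hinj
  have h2 := hM ρ hρ hρδ
  have h3 : B ρ * n ≤ |M| * n := by
    gcongr
    exact (le_abs_self _).trans (h2.trans (le_abs_self _))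
  unfold energy
  linarith

theorem radius_pos {ρ : ℝ} (hρ : 0 < ρ) {j : ℕ} (hj : 0 < j) : 0 < radius ρ j := by
  unfold radius
  positivity

theorem toReal_vol_ballJ {ρ : ℝ} (hρ : 0 < ρ) (j : ℕ) :
    (volume (ballJ ρ j)).toReal = j / ρ := by
  have := rho_mul_volume_ball hρ j
  field_simp
  linarith

theorem continuousAt_I {v : E3 → ℝ} (hv : Admissible v) {β : ℝ} (hβ : 0 < β) {ρ₀ : ℝ}
    (hρ₀ : 0 < ρ₀) {j : ℕ} (hj : 0 < j) :
    ContinuousAt (fun ρ => I v β ρ (ballJ ρ j) j) ρ₀ := by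
  obtain ⟨δ, hδ, M, hM0, hM⟩ := stableOn_ball hv hρ₀
  have hmeas := hv.integrable.aestronglyMeasurable
  set r₀ := radius ρ₀ j with hr₀
  have hset : ∀ r : ℝ, MeasurableSet {X : Fin j → E3 | ∀ i, X i ∈ Metric.ball (0 : E3) r} := by
    intro r
    rw [Set.ofPred_forall]
    exact MeasurableSet.iInter fun i => (measurable_pi_apply i) measurableSet_ball
  have h1 : (fun ρ => I v β ρ (ballJ ρ j) j) = fun ρ => ∫ X : Fin j → E3,
      ({X : Fin j → E3 | ∀ i, X i ∈ ballJ ρ j}).indicator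
        (fun X => Real.exp (-β * energy v ρ (ballJ ρ j) X)) X := by
    ext ρ
    unfold I
    have hset' : MeasurableSet {X : Fin j → E3 | ∀ i, X i ∈ ballJ ρ j} := hset (radius ρ j)
    rw [cfg_eq_restrict, integral_indicator hset']
  rw [h1]
  have hcr := continuousAt_radius hρ₀ j
  have hle : ∀ᶠ ρ in 𝓝 ρ₀, radius ρ j ≤ r₀ + 1 := by
    have := hcr.eventually (gt_mem_nhds (show r₀ < r₀ + 1 by linarith))
    filter_upwards [this] with ρ hρ using hρ.le
  have hpos : ∀ᶠ ρ in 𝓝 ρ₀, 0 < ρ := lt_mem_nhds hρ₀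
  have hnear : ∀ᶠ ρ in 𝓝 ρ₀, |ρ - ρ₀| < δ := by
    filter_upwards [Metric.ball_mem_nhds ρ₀ hδ] with ρ hρ
    rwa [Metric.mem_ball, Real.dist_eq] at hρ
  refine continuousAt_of_dominated (bound :=
    ({X : Fin j → E3 | ∀ i, X i ∈ Metric.ball (0 : E3) (r₀ + 1)}).indicator
    (fun _ => Real.exp (β * (M * j)))) ?_ ?_ ?_ ?_
  · filter_upwards with ρ
    exact (aesm_exp hmeas β ρ _ j).indicator (hset _)
  · filter_upwards [hle, hpos, hnear] with ρ h2 h3 h4
    filter_upwards [ae_injective j] with X hX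
    by_cases hXm : X ∈ {X : Fin j → E3 | ∀ i, X i ∈ ballJ ρ j}
    · have hXm' : X ∈ {X : Fin j → E3 | ∀ i, X i ∈ Metric.ball (0 : E3) (r₀ + 1)} :=
        fun i => Metric.ball_subset_ball h2 (hXm i)
      rw [Set.indicator_of_mem hXm, Set.indicator_of_mem hXm', Real.norm_eq_abs, Real.abs_exp]
      have h5 := hM (radius ρ j) (radius_pos h3 hj) j ρ h3 h4 (rho_mul_volume_ball h3 j) X hXm hX
      apply Real.exp_le_exp.2
      have : -(M * j) ≤ energy v ρ (ballJ ρ j) X := h5
      nlinarith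
    · rw [Set.indicator_of_notMem hXm, norm_zero]
      exact Set.indicator_nonneg (fun _ _ => (Real.exp_pos _).le) X
  · refine (integrable_indicator_iff (hset _)).2 (integrableOn_const ?_)
    have hfm : IsFiniteMeasure ((volume : Measure E3).restrict (Metric.ball 0 (r₀ + 1))) :=
      ⟨by simpa using (vol_ball_ne_top (r₀ + 1)).lt_top⟩
    have h2 : cfg (Metric.ball (0 : E3) (r₀ + 1)) j Set.univ ≠ ⊤ := measure_ne_top _ _
    rw [cfg_eq_restrict] at h2
    simpa using h2
  · have hae : ∀ᵐ X : Fin j → E3, ∀ i, ‖X i‖ ≠ r₀ := by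
      rw [ae_all_iff]
      intro i
      have := (Measure.tendsto_eval_ae_ae (μ := fun _ : Fin j => (volume : Measure E3)) (i := i))
      exact this.eventually (ae_norm_ne r₀)
    filter_upwards [hae] with X hX
    have hiff : ∀ᶠ ρ in 𝓝 ρ₀, (X ∈ {X : Fin j → E3 | ∀ i, X i ∈ ballJ ρ j} ↔
        X ∈ {X : Fin j → E3 | ∀ i, X i ∈ ballJ ρ₀ j}) := by
      have h2 : ∀ i, ∀ᶠ ρ in 𝓝 ρ₀, (X i ∈ ballJ ρ j ↔ X i ∈ ballJ ρ₀ j) := fun i =>
        hcr.eventually (eventually_mem_ball_iff (hX i))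
      filter_upwards [eventually_all.2 h2] with ρ hρ
      exact forall_congr' hρ
    by_cases h : X ∈ {X : Fin j → E3 | ∀ i, X i ∈ ballJ ρ₀ j}
    · have : (fun ρ => ({X : Fin j → E3 | ∀ i, X i ∈ ballJ ρ j}).indicator
          (fun X => Real.exp (-β * energy v ρ (ballJ ρ j) X)) X)
          =ᶠ[𝓝 ρ₀] fun ρ => Real.exp (-β * energy v ρ (ballJ ρ j) X) := by
        filter_upwards [hiff] with ρ hρ
        have hmem : X ∈ {X : Fin j → E3 | ∀ i, X i ∈ ballJ ρ j} := hρ.2 h
        rw [Set.indicator_of_mem hmem]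
      refine ContinuousAt.congr ?_ this.symm
      exact Real.continuous_exp.continuousAt.comp
        (continuousAt_const.mul (continuousAt_energy v hρ₀ j X))
    · have : (fun ρ => ({X : Fin j → E3 | ∀ i, X i ∈ ballJ ρ j}).indicator
          (fun X => Real.exp (-β * energy v ρ (ballJ ρ j) X)) X)
          =ᶠ[𝓝 ρ₀] fun _ => 0 := by
        filter_upwards [hiff] with ρ hρ
        have hnm : X ∉ {X : Fin j → E3 | ∀ i, X i ∈ ballJ ρ j} := fun h' => h (hρ.1 h')
        rw [Set.indicator_of_notMem hnm]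
      exact continuousAt_const.congr this.symm

theorem continuousAt_gFinite {v : E3 → ℝ} (hv : Admissible v) {β : ℝ} (hβ : 0 < β) {ρ₀ : ℝ}
    (hρ₀ : 0 < ρ₀) (j : ℕ) : ContinuousAt (fun ρ => gFinite v β ρ j) ρ₀ := by
  have hpos : ∀ᶠ ρ in 𝓝 ρ₀, 0 < ρ := lt_mem_nhds hρ₀
  rcases Nat.eq_zero_or_pos j with hj | hj
  · subst hj
    have : (fun ρ => gFinite v β ρ 0) =ᶠ[𝓝 ρ₀] fun _ => 0 := by
      filter_upwards [hpos] with ρ hρ
      unfold gFinite
      rw [toReal_vol_ballJ hρ 0]
      simp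
    exact continuousAt_const.congr this.symm
  · have h1 : (fun ρ => gFinite v β ρ j) =ᶠ[𝓝 ρ₀] fun ρ => ((j : ℝ) / ρ)⁻¹ *
        Real.log ((j.factorial : ℝ)⁻¹ * I v β ρ (ballJ ρ j) j) := by
      filter_upwards [hpos] with ρ hρ
      unfold gFinite
      rw [toReal_vol_ballJ hρ j, partitionFunction_eq]
    refine ContinuousAt.congr ?_ h1.symm
    obtain ⟨δ, hδ, M, hM0, hM⟩ := stableOn_ball hv hρ₀
    have hIpos : 0 < I v β ρ₀ (ballJ ρ₀ j) j := by
      refine I_pos hv.integrable.aestronglyMeasurable hβ measurableSet_ball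
        (vol_ball_ne_top _) ?_ (hM (radius ρ₀ j) (radius_pos hρ₀ hj) j ρ₀ hρ₀ (by simpa using hδ)
          (rho_mul_volume_ball hρ₀ j))
      exact (Metric.measure_ball_pos volume _ (radius_pos hρ₀ hj)).ne'
    have h2 : ContinuousAt (fun ρ : ℝ => ((j : ℝ) / ρ)⁻¹) ρ₀ := by
      have h3 : ρ₀ ≠ 0 := hρ₀.ne'
      have h4 : (j : ℝ) / ρ₀ ≠ 0 := by positivity
      fun_prop (disch := assumption)
    refine h2.mul (ContinuousAt.log (continuousAt_const.mul (continuousAt_I hv hβ hρ₀ hj)) ?_)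
    positivity

end Pool.Agent.Jellium
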