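import Pool.Agent.Jellium.FiniteCont

/-! Continuity of the limiting free energy. -/

open MeasureTheory Filter Topology

namespace Pool.Agent.Jellium

theorem abs_sub_le_of_steps {f : ℕ → ℝ} {C : ℝ} {a b : ℕ}
    (h : ∀ n, min a b ≤ n → n < max a b → |f (n + 1) - f n| ≤ C) :
    |f a - f b| ≤ C * |(a : ℝ) - b| := by
  wlog hab : a ≤ b generalizing a b with H
  · have := H (a := b) (b := a) (by rwa [min_comm, max_comm] at h) (by omega)
    rwa [abs_sub_comm, abs_sub_comm (a : ℝ)]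
  rw [min_eq_left hab, max_eq_right hab] at h
  have key : ∀ k, a + k ≤ b → |f a - f (a + k)| ≤ C * k := by
    intro k
    induction k with
    | zero => intro _; simp
    | succ k ih =>
      intro hk
      have h1 := ih (by omega)
      have h2 := h (a + k) (by omega) (by omega)
      calc |f a - f (a + (k + 1))| = |(f a - f (a + k)) - (f (a + k + 1) - f (a + k))| := by
            congr 1
            rw [← add_assoc]
            ring
        _ ≤ |f a - f (a + k)| + |f (a + k + 1) - f (a + k)| := abs_sub _ _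
        _ ≤ C * k + C := add_le_add h1 h2
        _ = C * (k + 1 : ℕ) := by push_cast; ring
  obtain ⟨k, rfl⟩ := Nat.exists_eq_add_of_le hab
  have := key k le_rfl
  have h3 : |((a : ℕ) : ℝ) - ((a + k : ℕ) : ℝ)| = k := by
    push_cast
    rw [sub_add_cancel_left, abs_neg, Nat.abs_cast]
  rw [h3]
  exact this

/-- local Lipschitz bound for the finite-volume partition functions in one ball -/
theorem exists_step_bound {v : E3 → ℝ} (hv : Admissible v) {β : ℝ} (hβ : 0 < β) {ρ₀ : ℝ}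
    (hρ₀ : 0 < ρ₀) : ∃ δ > 0, δ ≤ ρ₀ / 2 ∧ ∃ C ≥ 0, ∀ r > 0, ∀ n : ℕ,
      1 ≤ (volume (Metric.ball (0 : E3) r)).toReal →
      |(n : ℝ) / (volume (Metric.ball (0 : E3) r)).toReal - ρ₀| < δ →
      |((n + 1 : ℕ) : ℝ) / (volume (Metric.ball (0 : E3) r)).toReal - ρ₀| < δ →
      |Real.log (partitionFunction v β ((n + 1 : ℕ) / (volume (Metric.ball (0 : E3) r)).toReal)
          (Metric.ball 0 r) (n + 1))
        - Real.log (partitionFunction v β (n / (volume (Metric.ball (0 : E3) r)).toReal)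
          (Metric.ball 0 r) n)| ≤ C := by
  obtain ⟨δ₀, hδ₀, M, hM0, hM⟩ := stableOn_ball hv hρ₀
  set A := ∫ z, |v z| with hA
  have hA0 : 0 ≤ A := integral_nonneg fun z => abs_nonneg _
  set K := |Real.log (ρ₀ / 2)| + |Real.log (2 * ρ₀)| with hK
  refine ⟨min δ₀ (ρ₀ / 2), lt_min hδ₀ (by positivity), min_le_right _ _,
    K + β * (2 * ρ₀ * A) + β * (2 * M + (C₁ + 1) / 2), ?_, ?_⟩
  · have := C₁_nonneg
    positivity
  intro r hr n hV1 hn hn1
  set Λ := Metric.ball (0 : E3) r with hΛ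
  set V := (volume Λ).toReal with hV
  have hVpos : 0 < V := by linarith
  have hfin : volume Λ ≠ ⊤ := vol_ball_ne_top r
  have hvol0 : volume Λ ≠ 0 := (Metric.measure_ball_pos volume _ hr).ne'
  have hmeas := hv.integrable.aestronglyMeasurable
  obtain ⟨hna, hnb⟩ := lt_min_iff.1 hn
  obtain ⟨hn1a, hn1b⟩ := lt_min_iff.1 hn1
  rw [abs_lt] at hnb hn1b
  have hρn : 0 < (n : ℝ) / V := by linarith [hnb.1]
  have hρn1 : 0 < ((n + 1 : ℕ) : ℝ) / V := by positivity
  have hs : StableOn v ((n + 1 : ℕ) / V) Λ (n + 1) M :=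
    hM r hr (n + 1) _ hρn1 hn1a (by rw [← hΛ, ← hV]; field_simp)
  have hs' : StableOn v (n / V) Λ n M :=
    hM r hr n _ hρn hna (by rw [← hΛ, ← hV]; field_simp)
  have hup := I_succ_le hmeas hv.even hβ measurableSet_ball hfin hVpos hs hs'
  have hlow := le_I_succ hv.integrable hv.even hβ measurableSet_ball hfin hVpos hs hs'
  rw [← hΛ, ← hV, ← hA] at hlow
  rw [← hΛ, ← hV] at hup
  have hI1 := I_pos hmeas hβ measurableSet_ball hfin hvol0 hs
  have hI0 := I_pos hmeas hβ measurableSet_ball hfin hvol0 hs'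
  rw [← hΛ] at hI1 hI0
  set I1 := I v β ((n + 1 : ℕ) / V) Λ (n + 1) with hI1def
  set I0 := I v β (n / V) Λ n with hI0def
  have hJle : (∫ x in Λ, bgPotential Λ x) / (2 * V ^ 2) ≤ (C₁ + 1) / 2 := by
    have h1 := selfInt_le hfin
    rw [← hV] at h1
    rw [div_le_iff₀ (by positivity)]
    have h2 := C₁_nonneg
    have h3 : V * C₁ ≤ V ^ 2 * C₁ := by
      nlinarith [mul_nonneg (mul_nonneg h2 hVpos.le) (sub_nonneg.2 hV1)]
    nlinarith
  -- logarithms
  have hf1 : (0 : ℝ) < ((n + 1).factorial : ℝ)⁻¹ := by positivity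
  have hf0 : (0 : ℝ) < (n.factorial : ℝ)⁻¹ := by positivity
  have hlog1 : Real.log (partitionFunction v β ((n + 1 : ℕ) / V) Λ (n + 1))
      = Real.log I1 - Real.log (n + 1 : ℕ) - Real.log (n.factorial) := by
    rw [partitionFunction_eq, Real.log_mul hf1.ne' hI1.ne', Real.log_inv, Nat.factorial_succ,
      Nat.cast_mul, Real.log_mul (by positivity) (by positivity)]
    ring
  have hlog0 : Real.log (partitionFunction v β (n / V) Λ n)
      = Real.log I0 - Real.log (n.factorial) := by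
    rw [partitionFunction_eq, Real.log_mul hf0.ne' hI0.ne', Real.log_inv]
    ring
  have hupL : -β * (2 * M + (∫ x in Λ, bgPotential Λ x) / (2 * V ^ 2)) + Real.log I1
      ≤ Real.log V + Real.log I0 := by
    have := Real.log_le_log (by positivity) hup
    rwa [Real.log_mul (Real.exp_pos _).ne' hI1.ne', Real.log_exp,
      Real.log_mul hVpos.ne' hI0.ne'] at this
  have hlowL : Real.log V + -β * (n / V * A) + Real.log I0 ≤ Real.log I1 := by
    have := Real.log_le_log (by positivity) hlow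
    rwa [Real.log_mul (by positivity) hI0.ne', Real.log_mul hVpos.ne' (Real.exp_pos _).ne',
      Real.log_exp] at this
  have hlogr : Real.log (n + 1 : ℕ) - Real.log V = Real.log (((n + 1 : ℕ) : ℝ) / V) := by
    rw [Real.log_div (by positivity) hVpos.ne']
  have hlr1 : Real.log (((n + 1 : ℕ) : ℝ) / V) ≤ Real.log (2 * ρ₀) :=
    Real.log_le_log hρn1 (by linarith [hn1b.2])
  have hlr2 : Real.log (ρ₀ / 2) ≤ Real.log (((n + 1 : ℕ) : ℝ) / V) :=
    Real.log_le_log (by positivity) (by linarith [hn1b.1])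
  have hK1 : Real.log (2 * ρ₀) ≤ K := by
    rw [hK]
    linarith [le_abs_self (Real.log (2 * ρ₀)), abs_nonneg (Real.log (ρ₀ / 2))]
  have hK2 : -K ≤ Real.log (ρ₀ / 2) := by
    rw [hK]
    linarith [neg_abs_le (Real.log (ρ₀ / 2)), abs_nonneg (Real.log (2 * ρ₀))]
  have hnV : (n : ℝ) / V * A ≤ 2 * ρ₀ * A := by
    gcongr
    linarith [hnb.2]
  have h5 : β * ((n : ℝ) / V * A) ≤ β * (2 * ρ₀ * A) := by gcongr
  have h6 : β * (2 * M + (∫ x in Λ, bgPotential Λ x) / (2 * V ^ 2))
      ≤ β * (2 * M + (C₁ + 1) / 2) := by gcongr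
  have h7 : 0 ≤ β * (2 * ρ₀ * A) := by positivity
  have h8 : 0 ≤ β * (2 * M + (C₁ + 1) / 2) := by
    have := C₁_nonneg
    positivity
  rw [hlog1, hlog0, abs_le]
  constructor
  · linarith
  · linarith

theorem tendsto_g {v : E3 → ℝ} (hv : Admissible v) {β ρ : ℝ} (hβ : 0 < β) (hρ : 0 < ρ) :
    Tendsto (gFinite v β ρ) atTop (𝓝 (g v β ρ)) :=
  tendsto_nhds_limUnder (hv.limit_exists β ρ hβ hρ)

theorem ballJ_scale {ρ : ℝ} (hρ : 0 < ρ) {a b i : ℕ} (ha : 0 < a) (hb : 0 < b) :
    ballJ (a / b * ρ) (a * i) = ballJ ρ (b * i) := by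
  unfold ballJ radius
  congr 2
  push_cast
  field_simp

/-- Lipschitz bound along rational multiples. -/
theorem lipschitz_rational {v : E3 → ℝ} (hv : Admissible v) {β : ℝ} (hβ : 0 < β) {ρ₀ : ℝ}
    (hρ₀ : 0 < ρ₀) : ∃ δ > 0, δ ≤ ρ₀ / 2 ∧ ∃ C ≥ 0, ∀ ρ : ℝ, |ρ - ρ₀| < δ → ∀ a b : ℕ,
      0 < a → 0 < b → |(a : ℝ) / b * ρ - ρ₀| < δ →
      |g v β (a / b * ρ) - g v β ρ| ≤ C * |(a : ℝ) / b * ρ - ρ| := by
  obtain ⟨δ, hδ, hδρ, C, hC0, hC⟩ := exists_step_bound hv hβ hρ₀
  refine ⟨δ, hδ, hδρ, C, hC0, ?_⟩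
  intro ρ hρ a b ha hb hab
  have hρpos : 0 < ρ := by
    rw [abs_lt] at hρ
    linarith
  have hρ'pos : 0 < (a : ℝ) / b * ρ := by positivity
  have ht1 : Tendsto (fun i : ℕ => gFinite v β ρ (b * i)) atTop (𝓝 (g v β ρ)) :=
    (tendsto_g hv hβ hρpos).comp (tendsto_id.const_mul_atTop' hb)
  have ht2 : Tendsto (fun i : ℕ => gFinite v β (a / b * ρ) (a * i)) atTop
      (𝓝 (g v β (a / b * ρ))) :=
    (tendsto_g hv hβ hρ'pos).comp (tendsto_id.const_mul_atTop' ha)
  have ht : Tendsto (fun i : ℕ => |gFinite v β (a / b * ρ) (a * i) - gFinite v β ρ (b * i)|)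
      atTop (𝓝 |g v β (a / b * ρ) - g v β ρ|) := (ht2.sub ht1).abs
  refine le_of_tendsto ht ?_
  -- for large i
  obtain ⟨i₀, hi₀⟩ := exists_nat_ge ρ
  filter_upwards [eventually_ge_atTop (max 1 i₀)] with i hi
  have hi1 : 1 ≤ i := (le_max_left _ _).trans hi
  have hi2 : ρ ≤ i := hi₀.trans (by exact_mod_cast (le_max_right _ _).trans hi)
  have hbi : 0 < b * i := Nat.mul_pos hb hi1
  set r := radius ρ (b * i) with hr
  have hrpos : 0 < r := radius_pos hρpos hbi
  set V := (volume (Metric.ball (0 : E3) r)).toReal with hV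
  have hVeq : V = (b * i : ℕ) / ρ := toReal_vol_ballJ hρpos (b * i)
  have hV1 : 1 ≤ V := by
    rw [hVeq, le_div_iff₀ hρpos]
    push_cast
    have : (1 : ℝ) ≤ b := by exact_mod_cast hb
    nlinarith
  have hVpos : 0 < V := by linarith
  have hipos : (0 : ℝ) < i := by exact_mod_cast hi1
  have hbpos : (0 : ℝ) < b := by exact_mod_cast hb
  have hd1 : ((b * i : ℕ) : ℝ) / V = ρ := by
    rw [hVeq]
    push_cast
    field_simp
  have hd2 : ((a * i : ℕ) : ℝ) / V = a / b * ρ := by
    rw [hVeq]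
    push_cast
    field_simp
  have hg1 : gFinite v β ρ (b * i) = V⁻¹ *
      Real.log (partitionFunction v β ((b * i : ℕ) / V) (Metric.ball 0 r) (b * i)) := by
    rw [hd1]
    rfl
  have hg2 : gFinite v β (a / b * ρ) (a * i) = V⁻¹ *
      Real.log (partitionFunction v β ((a * i : ℕ) / V) (Metric.ball 0 r) (a * i)) := by
    unfold gFinite
    rw [ballJ_scale hρpos ha hb, hd2]
    rfl
  set f : ℕ → ℝ := fun n =>
    Real.log (partitionFunction v β (n / V) (Metric.ball 0 r) n) with hf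
  have hsteps : |f (a * i) - f (b * i)| ≤ C * |((a * i : ℕ) : ℝ) - (b * i : ℕ)| := by
    refine abs_sub_le_of_steps fun n hn1 hn2 => ?_
    -- densities in between
    have hconv : ∀ m : ℕ, min (a * i) (b * i) ≤ m → m ≤ max (a * i) (b * i) →
        |(m : ℝ) / V - ρ₀| < δ := by
      intro m hm1 hm2
      rw [abs_lt] at hρ hab ⊢
      have h1 : ((min (a * i) (b * i) : ℕ) : ℝ) / V ≤ (m : ℝ) / V := by gcongr
      have h2 : (m : ℝ) / V ≤ ((max (a * i) (b * i) : ℕ) : ℝ) / V := by gcongr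
      rcases le_total (a * i) (b * i) with hle | hle
      · rw [min_eq_left hle, hd2] at h1
        rw [max_eq_right hle, hd1] at h2
        constructor <;> linarith
      · rw [min_eq_right hle, hd1] at h1
        rw [max_eq_left hle, hd2] at h2
        constructor <;> linarith
    exact hC r hrpos n hV1 (hconv n hn1 hn2.le) (hconv (n + 1) (by omega) (by omega))
  rw [hg1, hg2, ← mul_sub, abs_mul, abs_of_pos (inv_pos.2 hVpos)]
  calc V⁻¹ * |f (a * i) - f (b * i)| ≤ V⁻¹ * (C * |((a * i : ℕ) : ℝ) - (b * i : ℕ)|) := by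
        gcongr
    _ = C * |((a * i : ℕ) : ℝ) / V - (b * i : ℕ) / V| := by
        rw [← sub_div, abs_div, abs_of_pos hVpos]
        ring
    _ = C * |(a : ℝ) / b * ρ - ρ| := by rw [hd1, hd2]

/-- the dense set of shifts -/
def D : Set ℝ := {s | ∃ a b : ℕ, 0 < a ∧ 0 < b ∧ s = Real.log (a / b)}

theorem dense_D : Dense D := by
  rw [Metric.dense_iff]
  intro t r hr
  obtain ⟨q, hq1, hq2⟩ := exists_rat_btwn
    (show Real.exp (t - r) < Real.exp (t + r) from Real.exp_lt_exp.2 (by linarith))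
  have hq0 : (0 : ℝ) < q := (Real.exp_pos _).trans hq1
  have hq0' : 0 < q := by exact_mod_cast hq0
  refine ⟨Real.log q, ?_, q.num.toNat, q.den, ?_, q.pos, ?_⟩
  · rw [Metric.mem_ball, Real.dist_eq, abs_lt]
    have h1 : t - r < Real.log q := (Real.lt_log_iff_exp_lt hq0).2 hq1
    have h2 : Real.log q < t + r := (Real.log_lt_iff_lt_exp hq0).2 hq2
    constructor <;> linarith
  · have := Rat.num_pos.2 hq0'
    omega
  · congr 1
    have h1 : 0 < q.num := Rat.num_pos.2 hq0'
    have h2 : ((q.num.toNat : ℤ) : ℝ) = q.num := by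
      rw [Int.toNat_of_nonneg h1.le]
    have h3 : ((q.num.toNat : ℕ) : ℝ) = (q.num : ℝ) := by exact_mod_cast h2
    rw [h3]
    exact_mod_cast (Rat.num_div_den q).symm

theorem continuous_g_exp {v : E3 → ℝ} (hv : Admissible v) {β : ℝ} (hβ : 0 < β) :
    Continuous (fun t : ℝ => g v β (Real.exp t)) := by
  refine continuous_of_shift (fun j t => gFinite v β (Real.exp t) j) _ (fun j => ?_)
    (fun t => tendsto_g hv hβ (Real.exp_pos t)) D dense_D fun t₀ => ?_
  · rw [continuous_iff_continuousAt]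
    intro t
    exact (continuousAt_gFinite hv hβ (Real.exp_pos t) j).comp (f := fun t : ℝ => Real.exp t)
      Real.continuous_exp.continuousAt
  · obtain ⟨δ, hδ, hδρ, C, hC0, hC⟩ := lipschitz_rational hv hβ (Real.exp_pos t₀)
    -- choose the window
    have hcont : ContinuousAt Real.exp t₀ := Real.continuous_exp.continuousAt
    obtain ⟨η, hη, hη'⟩ := Metric.continuousAt_iff.1 hcont δ hδ
    refine ⟨C * (2 * Real.exp (t₀ + 1)), min (η / 2) 1, by positivity, ?_⟩
    intro t ht s hs hsδ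
    obtain ⟨a, b, ha, hb, rfl⟩ := hs
    obtain ⟨ht1, ht2⟩ := lt_min_iff.1 ht
    obtain ⟨hs1, hs2⟩ := lt_min_iff.1 hsδ
    set s := Real.log ((a : ℝ) / b) with hs
    have habpos : (0 : ℝ) < (a : ℝ) / b := by positivity
    have hexps : Real.exp s = (a : ℝ) / b := Real.exp_log habpos
    have hexpts : Real.exp (t + s) = (a : ℝ) / b * Real.exp t := by
      rw [Real.exp_add, hexps, mul_comm]
    have h1 : |Real.exp t - Real.exp t₀| < δ := by
      have := hη' (show dist t t₀ < η by rw [Real.dist_eq]; linarith)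
      rwa [Real.dist_eq] at this
    have h2 : |(a : ℝ) / b * Real.exp t - Real.exp t₀| < δ := by
      rw [← hexpts]
      have hd : dist (t + s) t₀ < η := by
        rw [Real.dist_eq]
        calc |t + s - t₀| = |(t - t₀) + s| := by ring_nf
          _ ≤ |t - t₀| + |s| := abs_add_le _ _
          _ < η := by linarith
      have := hη' hd
      rwa [Real.dist_eq] at this
    have h3 := hC (Real.exp t) h1 a b ha hb h2
    rw [hexpts]
    refine h3.trans ?_
    have h4 : (a : ℝ) / b * Real.exp t - Real.exp t = Real.exp t * (Real.exp s - 1) := by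
      rw [hexps]
      ring
    rw [h4, abs_mul, abs_of_pos (Real.exp_pos t), mul_assoc]
    have h5 : |Real.exp s - 1| ≤ 2 * |s| := Real.abs_exp_sub_one_le hs2.le
    have h6 : Real.exp t ≤ Real.exp (t₀ + 1) := by
      apply Real.exp_le_exp.2
      rw [abs_lt] at ht2
      linarith [ht2.2]
    calc C * (Real.exp t * |Real.exp s - 1|) ≤ C * (Real.exp (t₀ + 1) * (2 * |s|)) := by gcongr
      _ = C * (2 * Real.exp (t₀ + 1) * |s|) := by ring

theorem continuousOn_g {v : E3 → ℝ} (hv : Admissible v) {β : ℝ} (hβ : 0 < β) :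
    ContinuousOn (g v β) (Set.Ioi 0) := by
  have h1 : ContinuousOn (fun ρ : ℝ => g v β (Real.exp (Real.log ρ))) (Set.Ioi 0) := by
    refine (continuous_g_exp hv hβ).comp_continuousOn ?_
    exact Real.continuousOn_log.mono fun x hx => (ne_of_gt hx : x ≠ 0)
  refine h1.congr fun ρ hρ => ?_
  simp only
  rw [Real.exp_log hρ]

end Pool.Agent.Jellium
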