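import Pool.Agent.Jellium.Comb

/-! Elementary bounds for the background potential. -/

open MeasureTheory Filter Topology

namespace Pool.Agent.Jellium

theorem integrableOn_ball_inv_norm (r : ℝ) :
    IntegrableOn (fun z : E3 => ‖z‖⁻¹) (Metric.ball 0 r) := by
  rw [integrableOn_fun_norm_addHaar (f := fun y : ℝ => y⁻¹) (volume : Measure E3)]
  have hd : Module.finrank ℝ E3 = 3 := by simp [E3]
  rw [hd]
  have h1 : IntegrableOn (fun y : ℝ => y) (Set.Ioo 0 r) := by
    have : Continuous (fun y : ℝ => y) := continuous_id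
    exact (this.integrableOn_Icc (a := 0) (b := r)).mono_set Set.Ioo_subset_Icc_self
  refine h1.congr_fun (fun y hy => ?_) measurableSet_Ioo
  have : y ≠ 0 := hy.1.ne'
  simp only [smul_eq_mul]
  field_simp

/-- The constant `∫_{|z|<1} |z|⁻¹ dz`. -/
noncomputable def C₁ : ℝ := ∫ z in Metric.ball (0 : E3) 1, ‖z‖⁻¹

theorem C₁_nonneg : 0 ≤ C₁ := by
  unfold C₁
  exact integral_nonneg fun z => by positivity

/-- the singular part of the kernel -/
noncomputable def sing (z : E3) : ℝ := (Metric.ball (0 : E3) 1).indicator (fun z => ‖z‖⁻¹) z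

theorem sing_nonneg (z : E3) : 0 ≤ sing z := by
  unfold sing
  exact Set.indicator_nonneg (fun z _ => by positivity) z

theorem integrable_sing : Integrable sing := by
  unfold sing
  exact (integrable_indicator_iff measurableSet_ball).2 (integrableOn_ball_inv_norm 1)

theorem integral_sing : ∫ z, sing z = C₁ := by
  unfold sing C₁
  exact integral_indicator measurableSet_ball

theorem inv_norm_le (z : E3) : ‖z‖⁻¹ ≤ sing z + 1 := by
  unfold sing
  by_cases h : z ∈ Metric.ball (0 : E3) 1
  · rw [Set.indicator_of_mem h]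
    linarith
  · rw [Set.indicator_of_notMem h]
    rw [mem_ball_zero_iff, not_lt] at h
    have : ‖z‖⁻¹ ≤ 1 := inv_le_one_of_one_le₀ h
    linarith

theorem sing_even (z : E3) : sing (-z) = sing z := by
  unfold sing
  by_cases h : z ∈ Metric.ball (0 : E3) 1
  · have h' : -z ∈ Metric.ball (0 : E3) 1 := by simpa using h
    rw [Set.indicator_of_mem h, Set.indicator_of_mem h', norm_neg]
  · have h' : -z ∉ Metric.ball (0 : E3) 1 := by simpa using h
    rw [Set.indicator_of_notMem h, Set.indicator_of_notMem h']

theorem integrable_sing_sub (x : E3) : Integrable (fun y => sing (x - y)) :=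
  integrable_sing.comp_sub_left x

theorem integrableOn_inv_norm_sub (x : E3) {Λ : Set E3} (hΛ : volume Λ ≠ ⊤) :
    IntegrableOn (fun y => ‖x - y‖⁻¹) Λ := by
  haveI : IsFiniteMeasure (volume.restrict Λ) := ⟨by simpa using hΛ.lt_top⟩
  have h1 : Integrable (fun y => sing (x - y) + 1) (volume.restrict Λ) :=
    ((integrable_sing_sub x).restrict).add (integrable_const 1)
  refine h1.mono' (by fun_prop) (Eventually.of_forall fun y => ?_)
  rw [Real.norm_eq_abs, abs_of_nonneg (by positivity)]
  exact inv_norm_le _

theorem bgPotential_nonneg (Λ : Set E3) (x : E3) : 0 ≤ bgPotential Λ x :=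
  integral_nonneg fun y => by positivity

theorem bgPotential_le {Λ : Set E3} (hΛ : volume Λ ≠ ⊤) (x : E3) :
    bgPotential Λ x ≤ C₁ + (volume Λ).toReal := by
  haveI : IsFiniteMeasure (volume.restrict Λ) := ⟨by simpa using hΛ.lt_top⟩
  unfold bgPotential
  calc ∫ y in Λ, ‖x - y‖⁻¹ ≤ ∫ y in Λ, (sing (x - y) + 1) := by
        refine integral_mono (integrableOn_inv_norm_sub x hΛ)
          (((integrable_sing_sub x).restrict).add (integrable_const 1)) fun y => inv_norm_le _
    _ = (∫ y in Λ, sing (x - y)) + (volume Λ).toReal := by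
        rw [integral_add ((integrable_sing_sub x).restrict) (integrable_const 1)]
        simp [Measure.real]
    _ ≤ C₁ + (volume Λ).toReal := by
        gcongr
        calc ∫ y in Λ, sing (x - y) ≤ ∫ y, sing (x - y) :=
              setIntegral_le_integral (integrable_sing_sub x)
                (Eventually.of_forall fun y => sing_nonneg _)
          _ = C₁ := by rw [integral_sub_left_eq_self (fun y => sing y), integral_sing]

theorem measurable_bgPotential (Λ : Set E3) : Measurable (bgPotential Λ) := by
  unfold bgPotential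
  have h : StronglyMeasurable (fun p : E3 × E3 => ‖p.1 - p.2‖⁻¹) := by
    apply Measurable.stronglyMeasurable
    fun_prop
  exact (h.integral_prod_right (ν := volume.restrict Λ)).measurable

theorem integrableOn_bgPotential {Λ : Set E3} (hΛ : volume Λ ≠ ⊤) :
    IntegrableOn (bgPotential Λ) Λ := by
  haveI : IsFiniteMeasure (volume.restrict Λ) := ⟨by simpa using hΛ.lt_top⟩
  refine (integrable_const (C₁ + (volume Λ).toReal)).mono'
    (measurable_bgPotential Λ).aestronglyMeasurable (Eventually.of_forall fun y => ?_)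
  rw [Real.norm_eq_abs, abs_of_nonneg (bgPotential_nonneg _ _)]
  exact bgPotential_le hΛ _

theorem selfInt_nonneg (Λ : Set E3) : 0 ≤ ∫ x in Λ, bgPotential Λ x :=
  integral_nonneg fun y => bgPotential_nonneg _ _

theorem selfInt_le {Λ : Set E3} (hΛ : volume Λ ≠ ⊤) :
    ∫ x in Λ, bgPotential Λ x ≤ (volume Λ).toReal * (C₁ + (volume Λ).toReal) := by
  haveI : IsFiniteMeasure (volume.restrict Λ) := ⟨by simpa using hΛ.lt_top⟩
  calc ∫ x in Λ, bgPotential Λ x ≤ ∫ _x in Λ, (C₁ + (volume Λ).toReal) :=
        integral_mono (integrableOn_bgPotential hΛ) (integrable_const _) fun y => bgPotential_le hΛ _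
    _ = _ := by simp [Measure.real]

end Pool.Agent.Jellium
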